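import Pool.Agent.TH612.GS.Stm3
import Pool.Agent.TH228.GS.ZM

set_option autoImplicit false

/-!
GF-ZN: from `GM M γ 0` to `zr γ` for fixed `α`, mean square over `β`.
-/

namespace Pool.Agent.TH928.GF

open Complex Filter Topology MeasureTheory Set
open Pool.Agent.TH612.CF Pool.Agent.TH612.GS Pool.Agent.TH228.GS
open scoped ENNReal

noncomputable section

/-- the majorant -/
def H3 (M : ℕ) (T : ℝ) (v : ℝ) : ℝ≥0∞ := H2 M T v + H2 M (2 * T) v

lemma H3_meas (M : ℕ) (T : ℝ) : Measurable (H3 M T) := (H2_meas M T).add (H2_meas M (2 * T))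

lemma sqrt_two_le {T : ℝ} (hT : 2 ≤ T) : (2 * T) ^ (1 / 2 : ℝ) ≤ T := by
  have h0 : (0 : ℝ) ≤ T := by linarith
  calc (2 * T) ^ (1 / 2 : ℝ) ≤ (T * T) ^ (1 / 2 : ℝ) :=
        Real.rpow_le_rpow (by linarith) (by nlinarith) (by norm_num)
    _ = T := by
        rw [← Real.sqrt_eq_rpow, Real.sqrt_mul_self h0]

lemma le_H3 (M : ℕ) {T v : ℝ} (hT : 2 ≤ T) (h1 : T ^ (1 / 2 : ℝ) ≤ |v|) (h2 : |v| ≤ 2 * T) :
    ENNReal.ofReal (hh M v) ≤ H3 M T v := by
  unfold H3
  rcases le_total |v| T with h | h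
  · exact (le_H2 M h1 h).trans (le_add_right le_rfl)
  · exact (le_H2 M ((sqrt_two_le hT).trans h) h2).trans (le_add_left le_rfl)

lemma H3_int (M : ℕ) {T : ℝ} (hT : 1 ≤ T) :
    ∫⁻ v, H3 M T v = 2 * ENNReal.ofReal (∫ v in (T ^ (1 / 2 : ℝ))..T, hh M v) +
      2 * ENNReal.ofReal (∫ v in ((2 * T) ^ (1 / 2 : ℝ))..(2 * T), hh M v) := by
  unfold H3
  rw [lintegral_add_left (H2_meas M T), H2_int M hT, H2_int M (by linarith)]

/-- integration over one coordinate -/
lemma fub1 {ι : Type} [Fintype ι] (T : ℝ) (q : ι) (c : ℝ) {H : ℝ → ℝ≥0∞} (hH : Measurable H) :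
    ∫⁻ β, H (c - β q) ∂(mP ι T) ≤ (∫⁻ v, H v) * ENNReal.ofReal T ^ (Fintype.card ι - 1) := by
  classical
  unfold mP
  have hm : Measurable fun β : ι → ℝ => H (c - β q) :=
    hH.comp (measurable_const.sub (measurable_pi_apply q))
  rw [lintegral_eq_lmarginal_univ (0 : ι → ℝ), lmarginal_erase' _ hm (Finset.mem_univ q)]
  refine (lmarginal_mono (g := fun _ => ∫⁻ v, H v) ?_ (0 : ι → ℝ)).trans ?_
  · intro x
    have e1 : ∀ a : ℝ, H (c - Function.update x q a q) = H (c - a) := by
      intro a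
      rw [Function.update_self]
    simp only [e1]
    refine (setLIntegral_le_lintegral _ _).trans ?_
    rw [lintegral_sub_left_eq_self H c]
  · unfold lmarginal
    rw [lintegral_const, Measure.pi_univ]
    simp only [Measure.restrict_apply MeasurableSet.univ, univ_inter, Real.volume_Icc, sub_zero,
      Finset.prod_const, Finset.card_univ, Fintype.card_coe]
    rw [Finset.card_erase_of_mem (Finset.mem_univ q), Finset.card_univ]

theorem t_ZN (hONE : S_ONE) : S_ZN := by
  obtain ⟨C₁, T₁, hC₁, hT₁, hone⟩ := hONE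
  intro k α
  have hBF : 0 ≤ BF k (1 / 8) := by unfold BF; positivity
  set D : ℝ := BF k (1 / 8) ^ 2 * (2 * max C₁ 2) ^ (2 * (k * k)) * (k * k) *
    ((k * k) * (6 * C₁)) with hD
  have hD0 : 0 ≤ D := by rw [hD]; positivity
  refine ⟨D + 1, max T₁ (∑ j, |α j|), 2 * (k * k), by linarith, hT₁.trans (le_max_left _ _), ?_⟩
  intro T M hTT hM hMT
  have hT : T₁ ≤ T := (le_max_left _ _).trans hTT
  have hTα : ∑ j, |α j| ≤ T := (le_max_right _ _).trans hTT
  have hαT : ∀ j, |α j| ≤ T := fun j =>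
    (Finset.single_le_sum (fun i _ => abs_nonneg (α i)) (Finset.mem_univ j)).trans hTα
  have hT3 : 3 ≤ T := hT₁.trans hT
  have hT1 : 1 ≤ T := by linarith
  have h0 : (1 : ℝ) ≤ T ^ (1 / 2 : ℝ) := Real.one_le_rpow hT1 (by norm_num)
  have h1 : T ^ (1 / 2 : ℝ) ≤ T := by
    calc T ^ (1 / 2 : ℝ) ≤ T ^ (1 : ℝ) := Real.rpow_le_rpow_of_exponent_le hT1 (by norm_num)
      _ = T := Real.rpow_one T
  have h12 : T ^ (1 / 2 : ℝ) ≤ (2 * T) ^ (1 / 2 : ℝ) :=
    Real.rpow_le_rpow (by linarith) (by linarith) (by norm_num)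
  obtain ⟨-, hi⟩ := hone T M hT hM hMT
  obtain ⟨hz, hi2⟩ := hone (2 * T) M (by linarith) hM (hMT.trans h12)
  have hL : 1 ≤ Real.log T := by
    rw [Real.le_log_iff_exp_le (by linarith)]
    have := Real.exp_one_lt_d9
    linarith
  have hL2 : Real.log (2 * T) ≤ 2 * Real.log T := by
    have : Real.log (2 * T) ≤ Real.log (T ^ 2) :=
      Real.log_le_log (by linarith) (by nlinarith)
    rwa [Real.log_pow, Nat.cast_ofNat] at this
  have hM1 : (1 : ℝ) ≤ M := by exact_mod_cast hM
  have hlogM : Real.log M ≤ Real.log T :=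
    Real.log_le_log (by linarith) (hMT.trans h1)
  set K : ℝ := (2 * max C₁ 2) * Real.log T with hK
  have hmx : (2 : ℝ) ≤ max C₁ 2 := le_max_right _ _
  have hK2 : 2 * Real.log T ≤ K := mul_le_mul_of_nonneg_right (by linarith) (by linarith)
  have hK1 : 1 ≤ K := by linarith
  have hKC : C₁ * Real.log (2 * T) ≤ K := by
    calc C₁ * Real.log (2 * T) ≤ C₁ * (2 * Real.log T) := mul_le_mul_of_nonneg_left hL2 hC₁.le
      _ ≤ max C₁ 2 * (2 * Real.log T) :=
          mul_le_mul_of_nonneg_right (le_max_left _ _) (by linarith)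
      _ = K := by rw [hK]; ring
  have hzN : ∀ v : ℝ, ‖zN M (1 + I * v)‖ ≤ K := fun v => (zN_le M v).trans (by linarith)
  set A : ℝ := BF k (1 / 8) ^ 2 * K ^ (2 * (k * k)) * (k * k) with hA
  have hA0 : 0 ≤ A := by rw [hA]; positivity
  -- the pointwise bound
  have hpt : ∀ β ∈ SepA α T, ENNReal.ofReal (‖GM M (gab α β) 0 - zr (gab α β)‖ ^ 2) ≤
      ENNReal.ofReal A * ∑ p : Fin k × Fin k, H3 M T (α p.1 - β p.2) := by
    intro β hβ
    obtain ⟨hβ1, -, hβ2⟩ := hβ
    set v : Fin k × Fin k → ℝ := fun p => α p.1 - β p.2 with hv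
    have hv1 : ∀ p, T ^ (1 / 2 : ℝ) ≤ |v p| := fun p => by
      have := hβ2 p.1 p.2
      rwa [abs_sub_comm] at this
    have hv2 : ∀ p, |v p| ≤ 2 * T := by
      intro p
      have a1 := hαT p.1
      have a2 := hβ1 p.2
      rw [abs_le] at a1 ⊢
      constructor <;> simp only [hv] <;> linarith [a1.1, a1.2, a2.1, a2.2]
    have e1 : GM M (gab α β) 0 =
        FH (fun j => (gab α β (Sum.inl j) : ℂ)) (fun j => (gab α β (Sum.inr j) : ℂ)) *
        ∏ p : Fin k × Fin k, zN M (1 + I * (v p : ℂ)) := by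
      unfold GM
      rw [Fintype.prod_prod_type]
      simp [hv, gab]
    have e2 : zr (gab α β) =
        FH (fun j => (gab α β (Sum.inl j) : ℂ)) (fun j => (gab α β (Sum.inr j) : ℂ)) *
        ∏ p : Fin k × Fin k, riemannZeta (1 + I * (v p : ℂ)) := by
      unfold zr zab
      rw [Fintype.prod_prod_type]
      congr 1
      refine Finset.prod_congr rfl fun j _ => Finset.prod_congr rfl fun l _ => ?_
      congr 1
      simp only [hv, gab, Sum.elim_inl, Sum.elim_inr]
      push_cast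
      ring
    have hFH : ‖FH (fun j => (gab α β (Sum.inl j) : ℂ)) (fun j => (gab α β (Sum.inr j) : ℂ))‖ ≤
        BF k (1 / 8) := by
      refine FH_le (by norm_num) fun j => ?_
      simp
    have hz' : ∀ p, ‖riemannZeta (1 + I * (v p : ℂ))‖ ≤ K := fun p =>
      (hz (v p) (h0.trans (hv1 p)) (hv2 p)).trans hKC
    have h2 := prod_sub_le Finset.univ (fun p : Fin k × Fin k => zN M (1 + I * (v p : ℂ)))
      (fun p => riemannZeta (1 + I * (v p : ℂ))) hK1 (fun p _ => hzN (v p)) (fun p _ => hz' p)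
    have hcard : (Finset.univ : Finset (Fin k × Fin k)).card = k * k := by simp
    rw [hcard] at h2
    have h3 : ‖GM M (gab α β) 0 - zr (gab α β)‖ ≤ BF k (1 / 8) * (K ^ (k * k) *
        ∑ p : Fin k × Fin k, ‖zN M (1 + I * (v p : ℂ)) - riemannZeta (1 + I * (v p : ℂ))‖) := by
      rw [e1, e2, ← mul_sub, norm_mul]
      exact mul_le_mul hFH h2 (norm_nonneg _) hBF
    have h4 : (∑ p : Fin k × Fin k,
        ‖zN M (1 + I * (v p : ℂ)) - riemannZeta (1 + I * (v p : ℂ))‖) ^ 2 ≤
        (k * k) * ∑ p : Fin k × Fin k, hh M (v p) := by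
      have := sq_sum_le_card_mul_sum_sq (s := (Finset.univ : Finset (Fin k × Fin k)))
        (f := fun p => ‖zN M (1 + I * (v p : ℂ)) - riemannZeta (1 + I * (v p : ℂ))‖)
      rw [hcard] at this
      push_cast at this
      refine this.trans (le_of_eq ?_)
      congr 1
      refine Finset.sum_congr rfl fun p _ => ?_
      unfold hh
      rw [norm_sub_rev]
    have h5 : ‖GM M (gab α β) 0 - zr (gab α β)‖ ^ 2 ≤ A * ∑ p : Fin k × Fin k, hh M (v p) := by
      calc ‖GM M (gab α β) 0 - zr (gab α β)‖ ^ 2 ≤ (BF k (1 / 8) * (K ^ (k * k) *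
            ∑ p : Fin k × Fin k,
              ‖zN M (1 + I * (v p : ℂ)) - riemannZeta (1 + I * (v p : ℂ))‖)) ^ 2 :=
            pow_le_pow_left₀ (norm_nonneg _) h3 2
        _ = BF k (1 / 8) ^ 2 * K ^ (2 * (k * k)) * (∑ p : Fin k × Fin k,
              ‖zN M (1 + I * (v p : ℂ)) - riemannZeta (1 + I * (v p : ℂ))‖) ^ 2 := by
            rw [mul_comm 2 (k * k), pow_mul]; ring
        _ ≤ BF k (1 / 8) ^ 2 * K ^ (2 * (k * k)) * ((k * k) *
              ∑ p : Fin k × Fin k, hh M (v p)) :=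
            mul_le_mul_of_nonneg_left h4 (by positivity)
        _ = _ := by rw [hA]; ring
    calc ENNReal.ofReal (‖GM M (gab α β) 0 - zr (gab α β)‖ ^ 2)
        ≤ ENNReal.ofReal (A * ∑ p : Fin k × Fin k, hh M (v p)) := ENNReal.ofReal_le_ofReal h5
      _ = ENNReal.ofReal A * ∑ p : Fin k × Fin k, ENNReal.ofReal (hh M (v p)) := by
          rw [ENNReal.ofReal_mul hA0, ENNReal.ofReal_sum_of_nonneg fun p _ => hh_nonneg M _]
      _ ≤ _ := by
          gcongr with p
          exact le_H3 M (by linarith) (hv1 p) (hv2 p)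
  have hmeas : ∀ p : Fin k × Fin k, Measurable fun β : Fin k → ℝ =>
      H3 M T (α p.1 - β p.2) := fun p =>
    (H3_meas M T).comp (measurable_const.sub (measurable_pi_apply _))
  have hmeasS : Measurable fun β : Fin k → ℝ => ENNReal.ofReal A *
      ∑ p : Fin k × Fin k, H3 M T (α p.1 - β p.2) :=
    (Finset.measurable_fun_sum _ fun p _ => hmeas p).const_mul _
  calc ∫⁻ β in SepA α T, ENNReal.ofReal (‖GM M (gab α β) 0 - zr (gab α β)‖ ^ 2) ∂(mP (Fin k) T)
      ≤ ∫⁻ β in SepA α T, ENNReal.ofReal A *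
          ∑ p : Fin k × Fin k, H3 M T (α p.1 - β p.2) ∂(mP (Fin k) T) :=
        setLIntegral_mono hmeasS hpt
    _ ≤ ∫⁻ β, ENNReal.ofReal A *
          ∑ p : Fin k × Fin k, H3 M T (α p.1 - β p.2) ∂(mP (Fin k) T) :=
        setLIntegral_le_lintegral _ _
    _ = ENNReal.ofReal A * ∑ p : Fin k × Fin k,
          ∫⁻ β, H3 M T (α p.1 - β p.2) ∂(mP (Fin k) T) := by
        rw [lintegral_const_mul _ (Finset.measurable_fun_sum _ fun p _ => hmeas p),
          lintegral_finsetSum _ fun p _ => hmeas p]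
    _ ≤ ENNReal.ofReal A * ∑ p : Fin k × Fin k,
          ENNReal.ofReal (6 * (C₁ * T / M) * T ^ (k - 1)) := by
        gcongr with p
        refine (fub1 T p.2 (α p.1) (H3_meas M T)).trans ?_
        rw [H3_int M hT1]
        have hT0 : 0 ≤ T := by linarith
        have hM0 : (0 : ℝ) < M := by linarith
        have hx : 0 ≤ C₁ * T / M := by positivity
        have e6 : 2 * ENNReal.ofReal (∫ v in (T ^ (1 / 2 : ℝ))..T, hh M v) +
            2 * ENNReal.ofReal (∫ v in ((2 * T) ^ (1 / 2 : ℝ))..(2 * T), hh M v) ≤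
            ENNReal.ofReal (6 * (C₁ * T / M)) := by
          have k1 : ENNReal.ofReal (∫ v in (T ^ (1 / 2 : ℝ))..T, hh M v) ≤
              ENNReal.ofReal (C₁ * T / M) := ENNReal.ofReal_le_ofReal hi
          have k2 : ENNReal.ofReal (∫ v in ((2 * T) ^ (1 / 2 : ℝ))..(2 * T), hh M v) ≤
              ENNReal.ofReal (2 * (C₁ * T / M)) := by
            refine ENNReal.ofReal_le_ofReal (hi2.trans (le_of_eq ?_))
            ring
          have k3 : ENNReal.ofReal (6 * (C₁ * T / M)) = 2 * ENNReal.ofReal (C₁ * T / M) +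
              2 * ENNReal.ofReal (2 * (C₁ * T / M)) := by
            rw [← ENNReal.ofReal_ofNat 2, ← ENNReal.ofReal_mul (by norm_num),
              ← ENNReal.ofReal_mul (by norm_num), ← ENNReal.ofReal_add (by positivity)
                (by positivity)]
            congr 1
            ring
          rw [k3]
          gcongr
        have e1 : Fintype.card (Fin k) - 1 = k - 1 := by simp
        rw [e1, ENNReal.ofReal_mul (by positivity), ENNReal.ofReal_pow hT0]
        gcongr
    _ ≤ ENNReal.ofReal ((D + 1) * Real.log T ^ (2 * (k * k)) * T ^ k / M) := by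
        have hT0 : 0 ≤ T := by linarith
        rw [Finset.sum_const, Finset.card_univ, Fintype.card_prod, Fintype.card_fin,
          nsmul_eq_mul, ← ENNReal.ofReal_natCast, ← ENNReal.ofReal_mul (by positivity),
          ← ENNReal.ofReal_mul hA0]
        refine ENNReal.ofReal_le_ofReal ?_
        rcases Nat.eq_zero_or_pos k with hk | hk
        · subst hk
          simp only [Nat.cast_zero, zero_mul, mul_zero, pow_zero]
          have : (0 : ℝ) < M := by linarith
          positivity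
        · have e2 : T * T ^ (k - 1) = T ^ k := by
            rw [← pow_succ']
            congr 1
            omega
          have e3 : A * (((k * k : ℕ) : ℝ) * (6 * (C₁ * T / M) * T ^ (k - 1))) =
              D * Real.log T ^ (2 * (k * k)) * T ^ k / M := by
            rw [← e2, hA, hD, hK, mul_pow (2 * max C₁ 2) (Real.log T)]
            push_cast
            ring
          rw [e3]
          gcongr
          linarith

end

end Pool.Agent.TH928.GF
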